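import Mathlib

/-!
# Rings whose square-zero elements generate nil left ideals are Dischinger

Rings are associative, an identity element is not assumed.
-/

namespace Pool.Agent.Results.MP_1cad20_al.SquareZeroNil

universe u

/-- `posPow a n` is the power `a ^ (n + 1)`, which makes sense without an identity. -/
def posPow {R : Type u} [NonUnitalRing R] (a : R) : ℕ → R
  | 0 => a
  | n + 1 => posPow a n * a

/-- For every `a` there is `n ≥ 1` such that `R a ^ n = {r a ^ n}` is a two-sided ideal. -/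
def IsWeaklyLeftDuo (R : Type u) [NonUnitalRing R] : Prop :=
  ∀ a : R, ∃ n : ℕ, ∃ I : TwoSidedIdeal R, (I : Set R) = {y : R | ∃ r : R, y = r * posPow a n}

/-- `a = x a ^ 2` for some `x`. -/
def IsLeftStronglyRegular {R : Type u} [NonUnitalRing R] (a : R) : Prop :=
  ∃ x : R, a = x * (a * a)

/-- `a = a ^ 2 x` for some `x`. -/
def IsRightStronglyRegular {R : Type u} [NonUnitalRing R] (a : R) : Prop :=
  ∃ x : R, a = (a * a) * x

/-- Every left strongly regular element is strongly regular. -/
def IsLeftDischinger (R : Type u) [NonUnitalRing R] : Prop :=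
  ∀ a : R, IsLeftStronglyRegular a → IsLeftStronglyRegular a ∧ IsRightStronglyRegular a

/-- Every right strongly regular element is strongly regular. -/
def IsRightDischinger (R : Type u) [NonUnitalRing R] : Prop :=
  ∀ a : R, IsRightStronglyRegular a → IsLeftStronglyRegular a ∧ IsRightStronglyRegular a

/-- If `d ^ 2 = 0` then `r d` is nilpotent for every `r`. -/
def IsSquareZeroNil (R : Type u) [NonUnitalRing R] : Prop :=
  ∀ d r : R, d * d = 0 → ∃ n : ℕ, posPow (r * d) n = 0

section Proof

variable {R : Type u} [NonUnitalRing R]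

theorem duo_mul (h : IsWeaklyLeftDuo R) (a : R) :
    ∃ n : ℕ, ∀ r s : R, ∃ t : R, r * posPow a n * s = t * posPow a n := by
  obtain ⟨n, I, hI⟩ := h a
  refine ⟨n, fun r s => ?_⟩
  have h1 : r * posPow a n ∈ I := by
    rw [← SetLike.mem_coe, hI]; exact ⟨r, rfl⟩
  have h2 : r * posPow a n * s ∈ I := I.mul_mem_right _ _ h1
  rw [← SetLike.mem_coe, hI] at h2
  exact h2

theorem posPow_mul_eq_zero {a b : R} (hb : b * a = 0) (n : ℕ) : posPow b n * a = 0 := by
  cases n with
  | zero => exact hb
  | succ n => simp [posPow, mul_assoc, hb]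

theorem posPow_idem {e : R} (he : e * e = e) (n : ℕ) : posPow e n = e := by
  induction n with
  | zero => rfl
  | succ n ih => simp [posPow, ih, he]

theorem inr_posPow (a : R) (n : ℕ) :
    ((posPow a n : R) : Unitization ℤ R) = (a : Unitization ℤ R) ^ (n + 1) := by
  induction n with
  | zero => simp [posPow]
  | succ n ih => simp [posPow, ih, pow_succ]

theorem exists_mul_inr (s : Unitization ℤ R) (r : R) :
    ∃ r' : R, s * (r : Unitization ℤ R) = (r' : Unitization ℤ R) := by
  induction s using Unitization.ind with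
  | inl_add_inr k r₀ =>
    refine ⟨k • r + r₀ * r, ?_⟩
    rw [add_mul, Unitization.inl_mul_inr, ← Unitization.inr_mul, Unitization.inr_add]

theorem posPow_comm (a : R) (n : ℕ) : a * posPow a n = posPow a n * a := by
  induction n with
  | zero => rfl
  | succ n ih => rw [posPow, ← mul_assoc, ih]

theorem sqz_of_duo (h : IsWeaklyLeftDuo R) : IsSquareZeroNil R := by
  intro d r hd
  obtain ⟨n, hn⟩ := duo_mul h (r * d)
  obtain ⟨t, ht⟩ := hn (r * d) r
  have hb : r * d * d = 0 := by rw [mul_assoc, hd, mul_zero]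
  refine ⟨n + 2, ?_⟩
  rw [posPow, posPow, ← posPow_comm, ← mul_assoc, ht, mul_assoc, posPow_mul_eq_zero hb, mul_zero]

/-- an element of `R a` which annihilates `a` on the left is nilpotent -/
theorem nil_of_ann (h : IsSquareZeroNil R) {a r : R} (hb : r * a * a = 0) :
    ∃ n : ℕ, posPow (r * a * (r * a)) n = 0 := by
  obtain ⟨n, hn⟩ := h (a * (r * a)) r (by
    rw [mul_assoc, ← mul_assoc (r * a), hb, zero_mul, mul_zero])
  exact ⟨n, by rwa [← mul_assoc] at hn⟩

/-- there is an idempotent `z a` with `z a a = a` -/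
theorem exists_idem (h : IsSquareZeroNil R) {a x : R} (hx : a = x * (a * a)) :
    ∃ z : R, z * a * (z * a) = z * a ∧ z * a * a = a := by
  have hea : x * a * a = a := by rw [mul_assoc]; exact hx.symm
  have hb : (x - x * a * x) * a * a = 0 := by
    rw [sub_mul, sub_mul, hea, mul_assoc (x * a) x a, mul_assoc (x * a) (x * a) a, hea, hea,
      sub_self]
  obtain ⟨n, hn⟩ := nil_of_ann h hb
  set e : Unitization ℤ R := ((x * a : R) : Unitization ℤ R) with he
  have hb' : (((x - x * a * x) * a : R) : Unitization ℤ R) = e - e ^ 2 := by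
    rw [he, sub_mul, mul_assoc (x * a) x a, Unitization.inr_sub, Unitization.inr_mul ℤ (x * a),
      sq]
  obtain ⟨m, hnil⟩ : ∃ m : ℕ, (e - e ^ 2) ^ (m + 3) = 0 := by
    have := congrArg (fun r : R => (r : Unitization ℤ R)) hn
    simp only [inr_posPow, Unitization.inr_mul ℤ _ ((x - x * a * x) * a), hb',
      Unitization.inr_zero] at this
    refine ⟨2 * n, ?_⟩
    rw [← sq (e - e ^ 2), ← pow_mul] at this
    rw [show 2 * n + 3 = 2 * (n + 1) + 1 by ring, pow_succ, this, zero_mul]
  have hid := isIdempotentElem_one_sub_one_sub_pow_pow e (m + 3) hnil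
  have hea' : e * (a : Unitization ℤ R) = a := by
    rw [he, ← Unitization.inr_mul, hea]
  have hpow : ∀ k : ℕ, e ^ k * (a : Unitization ℤ R) = a := by
    intro k
    induction k with
    | zero => simp
    | succ k ih => rw [pow_succ, mul_assoc, hea', ih]
  have hfa : (1 - (1 - e ^ (m + 3)) ^ (m + 3)) * (a : Unitization ℤ R) = a := by
    rw [sub_mul, one_mul, pow_succ (1 - e ^ (m + 3)), mul_assoc, sub_mul, one_mul, hpow, sub_self,
      mul_zero, sub_zero]
  have hdiv : 1 - (1 - e ^ (m + 3)) ^ (m + 3)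
      = (∑ i ∈ Finset.range (m + 3), (1 - e ^ (m + 3)) ^ i) * e ^ (m + 2) * x * a := by
    rw [mul_assoc _ (x : Unitization ℤ R), ← Unitization.inr_mul, ← he,
      mul_assoc _ (e ^ (m + 2)) e, ← pow_succ, ← geom_sum_mul_neg (1 - e ^ (m + 3)) (m + 3),
      sub_sub_cancel]
  obtain ⟨z, hz⟩ := exists_mul_inr
    ((∑ i ∈ Finset.range (m + 3), (1 - e ^ (m + 3)) ^ i) * e ^ (m + 2)) x
  rw [hz, ← Unitization.inr_mul] at hdiv
  rw [hdiv] at hid hfa
  refine ⟨z, Unitization.inr_injective (R := ℤ) ?_, Unitization.inr_injective (R := ℤ) ?_⟩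
  · rw [Unitization.inr_mul]; exact hid
  · rw [Unitization.inr_mul]; exact hfa

theorem left_of_sqz (h : IsSquareZeroNil R) {a x : R} (hx : a = x * (a * a)) :
    ∃ y : R, a = a * a * y := by
  obtain ⟨z, hid, hfa⟩ := exists_idem h hx
  obtain ⟨f, hf⟩ : ∃ f, f = z * a := ⟨_, rfl⟩
  rw [← hf] at hid hfa
  obtain ⟨w, hw⟩ : ∃ w, w = f * z * f := ⟨_, rfl⟩
  have hwa : w * a = f := by rw [hw, mul_assoc (f * z), hfa, mul_assoc, ← hf, hid]
  have hwf : w * f = w := by rw [hw, mul_assoc (f * z), hid]
  have hfw : f * w = w := by rw [hw, ← mul_assoc, ← mul_assoc, hid]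
  obtain ⟨d, hd⟩ : ∃ d, d = f - a * w := ⟨_, rfl⟩
  have hdf : d * f = d := by rw [hd, sub_mul, hid, mul_assoc, hwf]
  have hda : d * (a * f) = 0 := by
    rw [← mul_assoc, hd, sub_mul, hfa, mul_assoc a w, hwa, sub_mul, mul_assoc a f, hid, sub_self]
  have hdw : d * w * (a * f) = d := by
    rw [mul_assoc, ← mul_assoc w, hwa, hid, hdf]
  have hdd : d * d = d := by
    have h1 : d * (a * w) = 0 := by
      rw [← hfw, ← mul_assoc a, ← mul_assoc, hda, zero_mul]
    calc d * d = d * f - d * (a * w) := by rw [← mul_sub, ← hd]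
      _ = d := by rw [h1, hdf, sub_zero]
  obtain ⟨n, hn⟩ := nil_of_ann h (a := a * f) (r := d * w) (by rw [hdw, hda])
  rw [hdw, hdd, posPow_idem hdd, hd, sub_eq_zero] at hn
  have haf : a * f = a := by rw [← hwa, ← mul_assoc, ← hn, hfa]
  exact ⟨w, by rw [mul_assoc, ← hn, haf]⟩

theorem posPow_swap (d r : R) (n : ℕ) : posPow (d * r) (n + 1) = d * posPow (r * d) n * r := by
  induction n with
  | zero => simp [posPow, mul_assoc]
  | succ n ih => rw [posPow, ih, posPow]; simp only [mul_assoc]

theorem posPow_op (a : R) (n : ℕ) :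
    posPow (MulOpposite.op a) n = MulOpposite.op (posPow a n) := by
  induction n with
  | zero => rfl
  | succ n ih => rw [posPow, ih, posPow, ← posPow_comm, MulOpposite.op_mul]

theorem sqz_op (h : IsSquareZeroNil R) : IsSquareZeroNil Rᵐᵒᵖ := by
  intro d r hd
  obtain ⟨n, hn⟩ := h d.unop r.unop (by simpa using congrArg MulOpposite.unop hd)
  refine ⟨n + 1, ?_⟩
  have e : r * d = MulOpposite.op (d.unop * r.unop) := rfl
  rw [e, posPow_op, posPow_swap, hn]
  simp

end Proof

/-- A ring (identity not assumed) in which every square-zero element generates a nil left ideal is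
left and right Dischinger. -/
theorem result (R : Type u) [NonUnitalRing R] (h : IsSquareZeroNil R) :
    IsLeftDischinger R ∧ IsRightDischinger R := by
  refine ⟨fun a ⟨x, hx⟩ => ⟨⟨x, hx⟩, left_of_sqz h hx⟩, fun a ⟨x, hx⟩ => ?_⟩
  obtain ⟨y, hy⟩ := left_of_sqz (sqz_op h) (a := MulOpposite.op a) (x := MulOpposite.op x)
    (by simpa using congrArg MulOpposite.op hx)
  exact ⟨⟨y.unop, by simpa using congrArg MulOpposite.unop hy⟩, x, hx⟩

/-- Weakly left duo rings satisfy the hypothesis of `result`. -/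
theorem weaklyLeftDuo_squareZeroNil (R : Type u) [NonUnitalRing R] (h : IsWeaklyLeftDuo R) :
    IsSquareZeroNil R :=
  sqz_of_duo h

end Pool.Agent.Results.MP_1cad20_al.SquareZeroNil
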