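import Mathlib

/-!
# Every weakly left duo ring is left Dischinger

Rings are associative, an identity element is not assumed.
-/

set_option autoImplicit false

namespace Pool.Agent.Results.MP_1cad20_al.WeaklyLeftDuo

universe u

/-- `posPow a n` is the power `a ^ (n + 1)`, which makes sense without an identity. -/
def posPow {R : Type u} [NonUnitalRing R] (a : R) : ℕ → R
  | 0 => a
  | n + 1 => posPow a n * a

/-- For every `a` there is `n ≥ 1` such that `R a ^ n = {r a ^ n}` is a two-sided ideal. -/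
def IsWeaklyLeftDuo (R : Type u) [NonUnitalRing R] : Prop :=
  ∀ a : R, ∃ n : ℕ, ∃ I : TwoSidedIdeal R, (I : Set R) = {y : R | ∃ r : R, y = r * posPow a n}

/-- `a = x a ^ 2` for some `x`. -/
def IsLeftStronglyRegular {R : Type u} [NonUnitalRing R] (a : R) : Prop :=
  ∃ x : R, a = x * (a * a)

/-- `a = a ^ 2 x` for some `x`. -/
def IsRightStronglyRegular {R : Type u} [NonUnitalRing R] (a : R) : Prop :=
  ∃ x : R, a = (a * a) * x

/-- Every left strongly regular element is strongly regular. -/
def IsLeftDischinger (R : Type u) [NonUnitalRing R] : Prop :=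
  ∀ a : R, IsLeftStronglyRegular a → IsLeftStronglyRegular a ∧ IsRightStronglyRegular a

section Proof

variable {R : Type u} [NonUnitalRing R]

theorem duo_mul (h : IsWeaklyLeftDuo R) (a : R) :
    ∃ n : ℕ, ∀ r s : R, ∃ t : R, r * posPow a n * s = t * posPow a n := by
  obtain ⟨n, I, hI⟩ := h a
  refine ⟨n, fun r s => ?_⟩
  have h1 : r * posPow a n ∈ I := by
    rw [← SetLike.mem_coe, hI]; exact ⟨r, rfl⟩
  have h2 : r * posPow a n * s ∈ I := I.mul_mem_right _ _ h1
  rw [← SetLike.mem_coe, hI] at h2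
  exact h2

theorem posPow_eq_mul {a x : R} (hx : a = x * (a * a)) (n : ℕ) :
    posPow a n = x * posPow a (n + 1) := by
  induction n with
  | zero => simpa [posPow] using hx
  | succ n ih =>
    have : posPow a (n + 1) = posPow a n * a := rfl
    rw [this, ih, mul_assoc]
    rfl

theorem mul_eq_mul_posPow {a x : R} (hx : a = x * (a * a)) (n : ℕ) (r : R) :
    ∃ y : R, r * a = y * posPow a n := by
  induction n with
  | zero => exact ⟨r, rfl⟩
  | succ n ih =>
    obtain ⟨y, hy⟩ := ih
    exact ⟨y * x, by rw [hy, posPow_eq_mul hx n, mul_assoc]⟩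

theorem posPow_mul_eq_zero {a b : R} (hb : b * a = 0) (n : ℕ) : posPow b n * a = 0 := by
  cases n with
  | zero => exact hb
  | succ n => simp [posPow, mul_assoc, hb]

theorem posPow_idem {e : R} (he : e * e = e) (n : ℕ) : posPow e n = e := by
  induction n with
  | zero => rfl
  | succ n ih => simp [posPow, ih, he]

/-- an element of `R a` which annihilates `a` on the left is nilpotent -/
theorem nil_of_ann (h : IsWeaklyLeftDuo R) {a r : R} (hb : r * a * a = 0) :
    ∃ n : ℕ, r * a * posPow (r * a) n * (r * a) = 0 := by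
  obtain ⟨n, hn⟩ := duo_mul h (r * a)
  obtain ⟨t, ht⟩ := hn (r * a) r
  refine ⟨n, ?_⟩
  rw [← mul_assoc, ht, mul_assoc, posPow_mul_eq_zero hb, mul_zero]

theorem inr_posPow (a : R) (n : ℕ) :
    ((posPow a n : R) : Unitization ℤ R) = (a : Unitization ℤ R) ^ (n + 1) := by
  induction n with
  | zero => simp [posPow]
  | succ n ih => simp [posPow, ih, pow_succ]

theorem exists_mul_inr (s : Unitization ℤ R) (r : R) :
    ∃ r' : R, s * (r : Unitization ℤ R) = (r' : Unitization ℤ R) := by
  induction s using Unitization.ind with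
  | inl_add_inr k r₀ =>
    refine ⟨k • r + r₀ * r, ?_⟩
    rw [add_mul, Unitization.inl_mul_inr, ← Unitization.inr_mul, Unitization.inr_add]

/-- there is an idempotent `z a` with `z a a = a` -/
theorem exists_idem (h : IsWeaklyLeftDuo R) {a x : R} (hx : a = x * (a * a)) :
    ∃ z : R, z * a * (z * a) = z * a ∧ z * a * a = a := by
  have hea : x * a * a = a := by rw [mul_assoc]; exact hx.symm
  have hb : (x - x * a * x) * a * a = 0 := by
    rw [sub_mul, sub_mul, hea, mul_assoc (x * a) x a, mul_assoc (x * a) (x * a) a, hea, hea,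
      sub_self]
  obtain ⟨n, hn⟩ := nil_of_ann h hb
  set e : Unitization ℤ R := ((x * a : R) : Unitization ℤ R) with he
  have hb' : (((x - x * a * x) * a : R) : Unitization ℤ R) = e - e ^ 2 := by
    rw [he, sub_mul, mul_assoc (x * a) x a, Unitization.inr_sub, Unitization.inr_mul ℤ (x * a),
      sq]
  have hnil : (e - e ^ 2) ^ (n + 3) = 0 := by
    have := congrArg (fun r : R => (r : Unitization ℤ R)) hn
    simp only [Unitization.inr_mul ℤ _ ((x - x * a * x) * a),
      Unitization.inr_mul ℤ ((x - x * a * x) * a), inr_posPow, hb', Unitization.inr_zero] at this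
    rw [← this, ← pow_succ', ← pow_succ]
  have hid := isIdempotentElem_one_sub_one_sub_pow_pow e (n + 3) hnil
  have hea' : e * (a : Unitization ℤ R) = a := by
    rw [he, ← Unitization.inr_mul, hea]
  have hpow : ∀ k : ℕ, e ^ k * (a : Unitization ℤ R) = a := by
    intro k
    induction k with
    | zero => simp
    | succ k ih => rw [pow_succ, mul_assoc, hea', ih]
  have hfa : (1 - (1 - e ^ (n + 3)) ^ (n + 3)) * (a : Unitization ℤ R) = a := by
    rw [sub_mul, one_mul, pow_succ (1 - e ^ (n + 3)), mul_assoc, sub_mul, one_mul, hpow, sub_self,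
      mul_zero, sub_zero]
  have hdiv : 1 - (1 - e ^ (n + 3)) ^ (n + 3)
      = (∑ i ∈ Finset.range (n + 3), (1 - e ^ (n + 3)) ^ i) * e ^ (n + 2) * x * a := by
    rw [mul_assoc _ (x : Unitization ℤ R), ← Unitization.inr_mul, ← he,
      mul_assoc _ (e ^ (n + 2)) e, ← pow_succ, ← geom_sum_mul_neg (1 - e ^ (n + 3)) (n + 3), sub_sub_cancel]
  obtain ⟨z, hz⟩ := exists_mul_inr
    ((∑ i ∈ Finset.range (n + 3), (1 - e ^ (n + 3)) ^ i) * e ^ (n + 2)) x
  rw [hz, ← Unitization.inr_mul] at hdiv
  rw [hdiv] at hid hfa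
  refine ⟨z, Unitization.inr_injective (R := ℤ) ?_, Unitization.inr_injective (R := ℤ) ?_⟩
  · rw [Unitization.inr_mul]; exact hid
  · rw [Unitization.inr_mul]; exact hfa

end Proof

/-- Every weakly left duo ring (identity not assumed) is left Dischinger. -/
theorem result (R : Type u) [NonUnitalRing R] (h : IsWeaklyLeftDuo R) : IsLeftDischinger R := by
  intro a ha
  refine ⟨ha, ?_⟩
  obtain ⟨x, hx⟩ := ha
  obtain ⟨z, hid, hfa⟩ := exists_idem h hx
  -- `f = z a` is also a right identity for `a`
  have haf : a * (z * a) = a := by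
    obtain ⟨n, hn⟩ := duo_mul h (z * a)
    obtain ⟨t, ht⟩ := hn (z * a) a
    rw [posPow_idem hid, hid, hfa] at ht
    calc a * (z * a) = t * (z * a) * (z * a) := by rw [← ht]
      _ = t * (z * a) := by rw [mul_assoc, hid]
      _ = a := ht.symm
  -- the idempotent `f - a f z f` kills `a`, so it is nilpotent, so it is zero
  obtain ⟨f, hf⟩ : ∃ f, f = z * a := ⟨_, rfl⟩
  rw [← hf] at hid hfa haf
  have hff : f * f = f := hid
  have hfa' : f * a = a := hfa
  have hza : f * z * f * a = f := by
    rw [mul_assoc (f * z), hfa', mul_assoc, ← hf, hff]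
  obtain ⟨z', hz'⟩ : ∃ z', z' = f * z * f := ⟨_, rfl⟩
  rw [← hz'] at hza
  have hzf : z' * f = z' := by rw [hz', mul_assoc (f * z), hff]
  obtain ⟨d, hd⟩ : ∃ d, d = f - a * z' := ⟨_, rfl⟩
  have hdf : d * z * a = d := by
    rw [mul_assoc, ← hf, hd, sub_mul, hff, mul_assoc, hzf]
  have hda : d * a = 0 := by
    rw [hd, sub_mul, hfa', mul_assoc, hza, haf, sub_self]
  have hdd : d * d = d := by
    have h1 : d * (a * z') = 0 := by rw [← mul_assoc, hda, zero_mul]
    have h2 : d * f = d := by rw [hd, sub_mul, hff, mul_assoc, hzf]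
    calc d * d = d * f - d * (a * z') := by rw [← mul_sub, ← hd]
      _ = d := by rw [h1, h2, sub_zero]
  obtain ⟨n, hn⟩ := nil_of_ann h (a := a) (r := d * z) (by rw [hdf, hda])
  rw [hdf, posPow_idem hdd, hdd, hdd, hd, sub_eq_zero] at hn
  exact ⟨z', by rw [mul_assoc, ← hn, haf]⟩

end Pool.Agent.Results.MP_1cad20_al.WeaklyLeftDuo
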